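import Mathlib
import Pool.Agent.N408.IB.Stm

/-!
# IB/BAS2 (helper519, for helper408): basic bounds for the belt side
-/

set_option autoImplicit false

open Real Set MeasureTheory IB408

namespace N519.IB.BAS2

theorem b_pos : 0 < b := by unfold b; norm_num

theorem b_le : b ≤ 1 / 1000000 := le_rfl

theorem b3_pos : 0 < b ^ 3 := pow_pos b_pos 3

theorem b4_le : b ^ 4 ≤ b ^ 3 := by
  have h1 := b_pos
  have h2 := b_le
  have h3 := b3_pos
  nlinarith

theorem b3_le : b ^ 3 ≤ b ^ 2 / 1000 := by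
  have h1 := b_pos
  have h2 := b_le
  have h3 : 0 < b ^ 2 := pow_pos h1 2
  nlinarith

theorem b3_small : b ^ 3 ≤ 1 / 1000 := by
  unfold b
  norm_num

theorem cube_one (x e : ℝ) (he : e ≤ 1 / 1000) (h : |x - 1| ≤ e) :
    |x ^ 3 - 1| ≤ 301 / 100 * e := by
  obtain ⟨h1, h2⟩ := abs_le.1 h
  have h0 : 0 ≤ e := (abs_nonneg _).trans h
  have e1 : x ^ 3 - 1 = (x - 1) * (x ^ 2 + x + 1) := by ring
  have h3 : 0 ≤ x ^ 2 + x + 1 := by nlinarith
  have h4 : x ^ 2 + x + 1 ≤ 301 / 100 := by nlinarith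
  rw [e1, abs_mul, abs_of_nonneg h3]
  calc |x - 1| * (x ^ 2 + x + 1) ≤ e * (301 / 100) := mul_le_mul h h4 h3 h0
    _ = 301 / 100 * e := by ring

theorem cube_lip (x y : ℝ) (hx : |x - 1| ≤ 1 / 1000) (hy : |y - 1| ≤ 1 / 1000) :
    |x ^ 3 - y ^ 3| ≤ 301 / 100 * |x - y| := by
  obtain ⟨h1, h2⟩ := abs_le.1 hx
  obtain ⟨h3, h4⟩ := abs_le.1 hy
  have e1 : x ^ 3 - y ^ 3 = (x - y) * (x ^ 2 + x * y + y ^ 2) := by ring
  have h5 : 0 ≤ x ^ 2 + x * y + y ^ 2 := by nlinarith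
  have h6 : x ^ 2 + x * y + y ^ 2 ≤ 301 / 100 := by nlinarith
  rw [e1, abs_mul, abs_of_nonneg h5, mul_comm]
  exact mul_le_mul_of_nonneg_right h6 (abs_nonneg _)

theorem sin_lb (h3 : S_ODD1) (γ : ℝ) (h1 : al ≤ |γ|) (h2 : |γ| ≤ 2) : b ≤ |sin γ| := by
  obtain ⟨⟨ha1, ha2, ha3, _⟩, _⟩ := h3
  have hb0 := b_pos
  have hb1 := b_le
  have hpi := Real.pi_gt_three
  have hal : al ≤ 1 / 2 := by linarith
  have h4 : |sin γ| = |sin (|γ|)| := by
    rcases abs_choice γ with h | h <;> rw [h]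
    rw [sin_neg, abs_neg]
  rw [h4]
  refine le_trans ?_ (le_abs_self _)
  rw [← ha3]
  rcases le_total |γ| (π / 2) with h5 | h5
  · exact Real.sin_le_sin_of_le_of_le_pi_div_two (by linarith) h5 h1
  · rw [← Real.sin_pi_sub (|γ|)]
    exact Real.sin_le_sin_of_le_of_le_pi_div_two (by linarith) (by linarith) (by linarith)

theorem t (h1 : S_L1) (h2 : S_L2) (h3 : S_ODD1) (h4 : S_ODD2) (h5 : S_BAS1) : S_BAS2 := by
  intro q w hq hw0 hw1
  have hb0 := b_pos
  have hb2 : 0 < b ^ 2 := pow_pos hb0 2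
  have hb3 := b3_pos
  obtain ⟨_, _, _, _, hsc, hsb, _, hsz, hsl, _, _⟩ := h5 q hq
  obtain ⟨hoc, _, hobd, hoz, hol, _, _, _⟩ := h4 w hw0 hw1
  have c1 : Continuous (hb q w) := by
    unfold hb
    exact (continuous_const.add hsc).add hoc
  have c2 : ∀ γ, |hb q w γ - 1| ≤ b ^ 3 / 20 := by
    intro γ
    have e1 : hb q w γ - 1 = st q γ + ob w γ := by unfold hb; ring
    rw [e1]
    refine (abs_add_le _ _).trans ?_
    have e2 := hsb γ
    have e3 := hobd γ
    have e4 := b4_le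
    have e5 : w * (3 / 10) * b ^ 3 ≤ 1 / 10 * (3 / 10) * b ^ 3 := by gcongr
    linarith
  have c3 : ∀ γ, al ≤ |γ| → |γ| ≤ 2 → hb q w γ = 1 := by
    intro γ hg1 hg2
    unfold hb
    rw [hsz γ hg1, hoz γ (sin_lb h3 γ hg1 hg2)]
    ring
  have c4 : ∀ x y, |hb q w x - hb q w y| ≤ b ^ 2 / 5 * |x - y| := by
    intro x y
    have e1 : hb q w x - hb q w y = (st q x - st q y) + (ob w x - ob w y) := by unfold hb; ring
    rw [e1]
    refine (abs_add_le _ _).trans ?_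
    have e2 := hsl x y
    have e3 := hol x y
    have e4 := b3_le
    have e5 : w * b ^ 2 ≤ 1 / 10 * b ^ 2 := by gcongr
    have e6 := abs_nonneg (x - y)
    have e7 : w * b ^ 2 * |x - y| ≤ 1 / 10 * b ^ 2 * |x - y| :=
      mul_le_mul_of_nonneg_right e5 e6
    have e8 : b ^ 3 * |x - y| ≤ b ^ 2 / 1000 * |x - y| := mul_le_mul_of_nonneg_right e4 e6
    have e9 : 0 ≤ b ^ 2 * |x - y| := mul_nonneg hb2.le e6
    linarith
  have hsm := b3_small
  have c2' : ∀ γ, |hb q w γ - 1| ≤ 1 / 10 := fun γ => (c2 γ).trans (by linarith)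
  obtain ⟨_, _, lc, lb, _⟩ := h1 (hb q w) c1 c2'
  have lb' : ∀ θ, |Leg (hb q w) θ - 1| ≤ b ^ 3 / 20 := lb (b ^ 3 / 20) (by linarith) c2
  have lb'' : ∀ θ, |Leg (hb q w) θ - 1| ≤ 1 / 1000 := fun θ => (lb' θ).trans (by linarith)
  obtain ⟨ll, _⟩ := h2 (hb q w) c1 c2'
  have ll' := ll (b ^ 2 / 5) c4
  have c5 : Continuous (Pbelt q w) := by
    unfold Pbelt
    exact ((lc.pow 3).add ((lc.comp continuous_neg).pow 3)).div_const 2
  have c6 : ∀ β, |Pbelt q w β - 1| ≤ b ^ 3 / 5 := by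
    intro β
    have e1 : Pbelt q w β - 1 = ((Leg (hb q w) β ^ 3 - 1) + (Leg (hb q w) (-β) ^ 3 - 1)) / 2 := by
      unfold Pbelt; ring
    rw [e1, abs_div, abs_two]
    have e2 := cube_one _ (b ^ 3 / 20) (by linarith) (lb' β)
    have e3 := cube_one _ (b ^ 3 / 20) (by linarith) (lb' (-β))
    have e4 := abs_add_le (Leg (hb q w) β ^ 3 - 1) (Leg (hb q w) (-β) ^ 3 - 1)
    linarith
  have c7 : ∀ x y, |Pbelt q w x - Pbelt q w y| ≤ 2 * b ^ 2 * |x - y| := by
    intro x y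
    have e1 : Pbelt q w x - Pbelt q w y = ((Leg (hb q w) x ^ 3 - Leg (hb q w) y ^ 3) +
        (Leg (hb q w) (-x) ^ 3 - Leg (hb q w) (-y) ^ 3)) / 2 := by
      unfold Pbelt; ring
    rw [e1, abs_div, abs_two]
    have e2 := cube_lip _ _ (lb'' x) (lb'' y)
    have e3 := cube_lip _ _ (lb'' (-x)) (lb'' (-y))
    have e4 := abs_add_le (Leg (hb q w) x ^ 3 - Leg (hb q w) y ^ 3)
      (Leg (hb q w) (-x) ^ 3 - Leg (hb q w) (-y) ^ 3)
    have e5 := ll' x y
    have e6 := ll' (-x) (-y)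
    have e7 : |-x - -y| = |x - y| := by
      rw [← abs_neg]; congr 1; ring
    rw [e7] at e6
    have e9 : 0 ≤ b ^ 2 * |x - y| := mul_nonneg hb2.le (abs_nonneg _)
    nlinarith
  have c8 : ∀ β, Pbelt q w (-β) = Pbelt q w β := by
    intro β
    unfold Pbelt
    rw [neg_neg]
    ring
  have c9 : Continuous (pt q w) := by
    unfold pt
    exact (c5.comp continuous_arcsin).sub continuous_const
  have c10 : ∀ t, |pt q w t| ≤ b ^ 3 / 5 := fun t => c6 (arcsin t)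
  have c11 : Continuous (Av q w) := by
    unfold Av
    apply intervalIntegral.continuous_parametric_intervalIntegral_of_continuous'
    exact c9.comp (continuous_snd.mul continuous_fst)
  have c12 : ∀ x, |Av q w x| ≤ b ^ 3 / 5 := by
    intro x
    unfold Av
    have := intervalIntegral.norm_integral_le_of_norm_le_const (a := (0 : ℝ)) (b := 1)
      (C := b ^ 3 / 5) (f := fun τ => pt q w (τ * x)) (fun τ _ => c10 (τ * x))
    rw [Real.norm_eq_abs, sub_zero, abs_one, mul_one] at this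
    exact this
  have c13 : ∀ x, Av q w (-x) = Av q w x := by
    intro x
    unfold Av
    apply intervalIntegral.integral_congr
    intro τ _
    show pt q w (τ * -x) = pt q w (τ * x)
    unfold pt
    rw [mul_neg, arcsin_neg, c8]
  have c14 : ∀ x, x * Av q w x = ∫ t in (0 : ℝ)..x, pt q w t := by
    intro x
    unfold Av
    rw [intervalIntegral.mul_integral_comp_mul_right, zero_mul, one_mul]
  exact ⟨c1, c2, c3, c4, c5, c6, c7, c8, c9, c10, c11, c12, c13, c14⟩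

end N519.IB.BAS2
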